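import Pool.Agent.helper74.GN.Defs
import Pool.Agent.helper52.GNU.Structure

/-!
GNU project, module GN1: structure of the groups of order `w ^ 3 * v ^ 2 * (B * C * D)`.
-/

set_option autoImplicit false

namespace Pool.Agent.helper74.GN

theorem helper52_prodAct_eq {Q W V : Type} [Group Q] [Group W] [Group V] (φ : Q →* MulAut W)
    (ψ : Q →* MulAut V) : Pool.Agent.helper52.GNU.prodAct φ ψ = pairHom φ ψ :=
  MonoidHom.ext fun _ => MulEquiv.ext fun _ => rfl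

/-- the arithmetic consequences of the hypotheses -/
theorem helper52_not_dvd {q n : ℕ} (hn : 0 < n) (h : n < q) : ¬ q ∣ n := by
  intro h1
  exact absurd (Nat.le_of_dvd hn h1) (not_le.2 h)

theorem helper52_vmod {w v : ℕ} (hw : w.Prime) {j : ℕ} (h : (v : ZMod w) ^ j ≠ 1) :
    v ^ j % w ≠ 1 := by
  intro h1
  apply h
  have h2 : ((v ^ j : ℕ) : ZMod w) = ((1 : ℕ) : ZMod w) := by
    rw [ZMod.natCast_eq_natCast_iff']
    rw [h1, Nat.mod_eq_of_lt hw.one_lt]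
  simpa using h2

theorem HypV.w_lt {B C D w v : ℕ} (hw : HypW B C D w) (hv : HypV B C D w v) : w < v := by
  have h1 : w ^ 1 ≤ w ^ 3 := Nat.pow_le_pow_right hw.pw.pos (by norm_num)
  rw [pow_one] at h1
  exact lt_of_le_of_lt h1 hv.wv

theorem helper52_coprime {B C D w v q : ℕ} (h : HypQ B C D) (hw : HypW B C D w)
    (hv : HypV B C D w v) (hq : q.Prime) (hqw : q < w) (hB : ¬ B ∣ q - 1) (hC : ¬ C ∣ q - 1)
    (hD : ¬ D ∣ q - 1) : Nat.Coprime (w ^ 3 * v ^ 2 * (B * C * D)) (q - 1) := by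
  have hq1 : 0 < q - 1 := Nat.sub_pos_of_lt hq.one_lt
  have hwq : ¬ w ∣ q - 1 := helper52_not_dvd hq1 (by omega)
  have hvq : ¬ v ∣ q - 1 := helper52_not_dvd hq1 (by have := HypV.w_lt hw hv; omega)
  refine Nat.Coprime.mul_left (Nat.Coprime.mul_left ?_ ?_)
    (Nat.Coprime.mul_left (Nat.Coprime.mul_left ?_ ?_) ?_)
  · exact Nat.Coprime.pow_left 3 ((Nat.Prime.coprime_iff_not_dvd hw.pw).2 hwq)
  · exact Nat.Coprime.pow_left 2 ((Nat.Prime.coprime_iff_not_dvd hv.pv).2 hvq)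
  · exact (Nat.Prime.coprime_iff_not_dvd h.pB).2 hB
  · exact (Nat.Prime.coprime_iff_not_dvd h.pC).2 hC
  · exact (Nat.Prime.coprime_iff_not_dvd h.pD).2 hD

theorem structN {B C D w v : ℕ} (h : HypQ B C D) (hw : HypW B C D w) (hv : HypV B C D w v)
    (G : Type) [Group G] (hG : Nat.card G = w ^ 3 * v ^ 2 * (B * C * D)) :
    ∃ (W V : Type) (_ : Group W) (_ : Group V) (φ : Q B C D →* MulAut W)
      (ψ : Q B C D →* MulAut V), Nat.card W = w ^ 3 ∧ Nat.card V = v ^ 2 ∧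
      Nonempty (G ≃* (W × V) ⋊[pairHom φ ψ] Q B C D) := by
  have hpos : 0 < w ^ 3 * v ^ 2 * (B * C * D) :=
    Nat.mul_pos (Nat.mul_pos (pow_pos hw.pw.pos 3) (pow_pos hv.pv.pos 2))
      (Nat.mul_pos (Nat.mul_pos h.pB.pos h.pC.pos) h.pD.pos)
  have hfin : Finite G := Nat.finite_of_card_ne_zero (by rw [hG]; exact hpos.ne')
  have hwv := HypV.w_lt hw hv
  have hBw := hw.Bw
  have hCw := hw.Cw
  have hDw := hw.Dw
  have hB1 : ¬ B ∣ B - 1 := helper52_not_dvd (Nat.sub_pos_of_lt h.pB.one_lt)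
    (Nat.sub_lt h.pB.pos one_pos)
  have hC1 : ¬ C ∣ C - 1 := helper52_not_dvd (Nat.sub_pos_of_lt h.pC.one_lt)
    (Nat.sub_lt h.pC.pos one_pos)
  have hD1 : ¬ D ∣ D - 1 := helper52_not_dvd (Nat.sub_pos_of_lt h.pD.one_lt)
    (Nat.sub_lt h.pD.pos one_pos)
  obtain ⟨W, V, iW, iV, φ, ψ, hW, hV, he⟩ := Pool.Agent.helper52.GNU.structure_theorem (G := G)
    hw.pw hv.pv h.pB h.pC h.pD h.BC h.BD h.CD (by omega) (by omega) (by omega) (by omega)
    (by omega) (by omega) hv.wv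
    (by simpa using helper52_vmod hw.pw (hv.vw 1 one_pos one_le_two))
    (helper52_vmod hw.pw (hv.vw 2 two_pos le_rfl)) hG
    (by rw [hG]; exact helper52_coprime h hw hv h.pB hBw hB1 h.r2 h.r4)
    (by rw [hG]; exact helper52_coprime h hw hv h.pC hCw h.r1 hC1 h.r6)
    (by rw [hG]; exact helper52_coprime h hw hv h.pD hDw h.r3 h.r5 hD1)
  refine ⟨W, V, iW, iV, φ, ψ, hW, hV, ?_⟩
  rw [helper52_prodAct_eq] at he
  exact he

end Pool.Agent.helper74.GN
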