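import Pool.Agent.helper52.GN.GN13of
import Pool.Agent.helper40.GN.GN8
import Pool.Agent.helper18.GN.GN10

/-!
GNU project, module GN13: assembly of the group part.
-/

set_option autoImplicit false

namespace Pool.Agent.helper74.GN

theorem gnu_count {B C D : ℕ} (h : HypQ B C D) (k : ℕ)
    (hk : 6 * k = 45 * C + 36 * B + 4 * D + 641) :
    ∃ n : ℕ, 0 < n ∧ Gnu n k :=
  gnu_count_of h (fun _ hw => menuW h hw) (fun _ _ hv => menuV h hv) k hk

end Pool.Agent.helper74.GN
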