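import Pool.Agent.helper52.GN.GN4b
import Pool.Agent.helper85.GN.GN11
import Pool.Agent.helper85.GN.GN12

/-!
GNU project, module GN13: assembly (from the two menus).
-/

set_option autoImplicit false

namespace Pool.Agent.helper74.GN

theorem helper52_gnu_of_classified {n k : ℕ} {ι : Type} (h : Classified n ι) [Finite ι]
    (hk : Nat.card ι = k) : Gnu n k := by
  obtain ⟨G, iG, h1, h2, h3⟩ := h
  let e : ι ≃ Fin k := Finite.equivFinOfCardEq hk
  refine ⟨fun i => G (e.symm i), fun i => iG (e.symm i), fun i => h1 _, fun i j hij => ?_,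
    fun H _ hH => ?_⟩
  · exact e.symm.injective (h2 _ _ hij)
  · obtain ⟨i, hi⟩ := h3 H hH
    obtain ⟨j, rfl⟩ := e.symm.surjective i
    exact ⟨j, hi⟩

theorem gnu_count_of {B C D : ℕ} (h : HypQ B C D)
    (menuW : ∀ w, HypW B C D w → ∃ M : Menu B C D (w ^ 3), IsW M)
    (menuV : ∀ w v, HypV B C D w v → ∃ M : Menu B C D (v ^ 2), IsV M)
    (k : ℕ) (hk : 6 * k = 45 * C + 36 * B + 4 * D + 641) :
    ∃ n : ℕ, 0 < n ∧ Gnu n k := by
  obtain ⟨w, hw⟩ := exists_w h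
  obtain ⟨v, hv⟩ := exists_v h hw
  obtain ⟨M₁, hM₁⟩ := menuW w hw
  obtain ⟨M₂, hM₂⟩ := menuV w v hv
  have hN := helper52_N_pos h hw hv
  refine ⟨7 * (w ^ 3 * v ^ 2 * (B * C * D)), by omega, ?_⟩
  have c1 := card_Idx h M₁ M₂ hM₁ hM₂
  have c2 := card_IdxD h M₁ M₂ hM₁ hM₂
  have hD := h.D42
  have hC7 := h.C7
  have hC2 : C % 2 = 1 := (h.pC.eq_two_or_odd).resolve_left (by omega)
  have f1 : Finite (Idx M₁ M₂) := Nat.finite_of_card_ne_zero (by rw [c1]; omega)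
  have f2 : Finite (IdxD M₁ M₂) := Nat.finite_of_card_ne_zero (by rw [c2]; omega)
  refine helper52_gnu_of_classified (classify7 h hw hv M₁ M₂) ?_
  rw [Nat.card_sum, c1, c2]
  omega

end Pool.Agent.helper74.GN
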