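import Pool.Agent.helper52.GN.GN1

/-!
GNU project, module GN2: groups of order `7 * w ^ 3 * v ^ 2 * (B * C * D)`.
-/

set_option autoImplicit false

open Subgroup
open scoped Pointwise

namespace Pool.Agent.helper74.GN

/-- An internal direct product of two commuting subgroups of coprime orders. -/
theorem helper52_prod_equiv {G : Type} [Group G] [Finite G] (H K : Subgroup G)
    (hcomm : ∀ g ∈ H, ∀ x ∈ K, g * x = x * g) (hcop : Nat.Coprime (Nat.card H) (Nat.card K))
    (hc : Nat.card G = Nat.card H * Nat.card K) : Nonempty (G ≃* H × K) := by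
  let m : H × K →* G := MonoidHom.noncommCoprod H.subtype K.subtype
    (fun a b => hcomm a a.2 b b.2)
  have hm : ∀ x : H × K, m x = (x.1 : G) * x.2 := fun x => rfl
  have hHK : H ⊓ K = ⊥ := by
    rw [Subgroup.eq_bot_iff_card]
    exact Nat.eq_one_of_dvd_coprimes hcop (Subgroup.card_dvd_of_le inf_le_left)
      (Subgroup.card_dvd_of_le inf_le_right)
  have hi : Function.Injective m := by
    rw [injective_iff_map_eq_one]
    intro x hx
    rw [hm] at hx
    have h4 : (x.1 : G) = (x.2 : G)⁻¹ := eq_inv_of_mul_eq_one_left hx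
    have h5 : (x.1 : G) ∈ H ⊓ K := ⟨x.1.2, h4 ▸ K.inv_mem x.2.2⟩
    rw [hHK, Subgroup.mem_bot] at h5
    rw [h5, one_mul] at hx
    exact Prod.ext (Subtype.ext h5) (Subtype.ext hx)
  exact ⟨(MulEquiv.ofBijective m ((Nat.bijective_iff_injective_and_card _).2
    ⟨hi, by rw [Nat.card_prod, hc]⟩)).symm⟩

/-- The kernel of a homomorphism with coprime target is characteristic. -/
theorem helper52_ker_char {K A : Type*} [Group K] [Group A] (g : K →* A) {a b : ℕ}
    (ha : ∀ x ∈ g.ker, x ^ a = 1) (hb : ∀ y : A, y ^ b = 1) (hab : Nat.Coprime a b) :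
    g.ker.Characteristic := by
  rw [Subgroup.characteristic_iff_le_comap]
  intro φ x hx
  rw [Subgroup.mem_comap, MonoidHom.mem_ker]
  have h1 : (g (φ x)) ^ a = 1 := by
    rw [← map_pow]
    have h2 : (φ x) ^ a = 1 := by
      rw [← map_pow, ha x hx, map_one]
    rw [h2, map_one]
  have h2 : orderOf (g (φ x)) ∣ a := orderOf_dvd_of_pow_eq_one h1
  have h3 : orderOf (g (φ x)) ∣ b := orderOf_dvd_of_pow_eq_one (hb _)
  have h4 := Nat.eq_one_of_dvd_coprimes hab h2 h3
  exact orderOf_eq_one_iff.1 h4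

/-- An `r`-group acting on a group of order `p^n` without relations acts trivially. -/
theorem helper52_commute {K : Type*} [Group K] [Finite K] {r p n : ℕ} (hr : r.Prime)
    (hp : p.Prime) (hrp : r ≠ p) (h : ∀ j : ℕ, 0 < j → j ≤ n → (p : ZMod r) ^ j ≠ 1)
    (P R : Subgroup K) (hP : IsPGroup r P)
    (hR : Nat.card R = p ^ n) (hn : P ≤ normalizer (R : Set K)) :
    ∀ g ∈ P, ∀ x ∈ R, g * x = x * g := by
  have : Fact r.Prime := ⟨hr⟩
  let act : MulDistribMulAction P R :=
    MulDistribMulAction.compHom R (R.normalizerMonoidHom.comp (Subgroup.inclusion hn))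
  have hsm : ∀ (g : P) (x : R), ((g • x : R) : K) = g * x * (g : K)⁻¹ := by
    intro g x
    rfl
  have hcard := hP.card_modEq_card_fixedPoints (α := R)
  set F : Subgroup R := FixedPoints.subgroup P R with hF
  have hFc : Nat.card (MulAction.fixedPoints P R) = Nat.card F := rfl
  rw [hFc, hR] at hcard
  have hdvd : Nat.card F ∣ p ^ n := hR ▸ Subgroup.card_subgroup_dvd_card F
  obtain ⟨k, hk, hk2⟩ := (Nat.dvd_prime_pow hp).1 hdvd
  have htop : F = ⊤ := by
    apply Subgroup.eq_top_of_card_eq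
    rw [hk2, hR]
    by_contra hne
    have hkn : k < n := lt_of_le_of_ne hk (fun h => hne (by rw [h]))
    rw [hk2] at hcard
    have h1 : ((p ^ n : ℕ) : ZMod r) = ((p ^ k : ℕ) : ZMod r) :=
      (ZMod.natCast_eq_natCast_iff _ _ _).2 hcard
    have hp0 : (p : ZMod r) ≠ 0 := by
      intro h2
      have h3 : r ∣ p := (ZMod.natCast_eq_zero_iff p r).1 h2
      exact hrp ((Nat.prime_dvd_prime_iff_eq hr hp).1 h3)
    apply h (n - k) (Nat.sub_pos_of_lt hkn) (Nat.sub_le n k)
    have h2 : (p : ZMod r) ^ k * (p : ZMod r) ^ (n - k) = (p : ZMod r) ^ k * 1 := by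
      rw [← pow_add, mul_one, Nat.add_sub_cancel' hk]
      push_cast at h1
      exact h1
    exact mul_left_cancel₀ (pow_ne_zero k hp0) h2
  intro g hg x hx
  have hxF : (⟨x, hx⟩ : R) ∈ F := by
    rw [htop]
    exact Subgroup.mem_top _
  have h3 : (⟨g, hg⟩ : P) • (⟨x, hx⟩ : R) = ⟨x, hx⟩ := hxF ⟨g, hg⟩
  have h4 := congrArg (fun y : R => (y : K)) h3
  simp only [hsm] at h4
  exact mul_inv_eq_iff_eq_mul.1 h4

/-- powers of a commutator that commutes with `h` -/
theorem helper52_comm_pow {G : Type*} [Group G] {h x c : G} (hx : h * x * h⁻¹ = c * x)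
    (hc : h * c = c * h) (k : ℕ) : h ^ k * x * (h ^ k)⁻¹ = c ^ k * x := by
  induction k with
  | zero => simp
  | succ k ih =>
    have h1 : h ^ (k + 1) * x * (h ^ (k + 1))⁻¹ = h * (h ^ k * x * (h ^ k)⁻¹) * h⁻¹ := by
      rw [pow_succ', mul_inv_rev]
      group
    have h2 : h * c ^ k = c ^ k * h := (Commute.pow_right (show Commute h c from hc) k).eq
    rw [h1, ih]
    calc h * (c ^ k * x) * h⁻¹ = (h * c ^ k) * x * h⁻¹ := by group
      _ = c ^ k * (h * x * h⁻¹) := by rw [h2]; group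
      _ = c ^ (k + 1) * x := by rw [hx, pow_succ]; group

theorem helper52_eq_one {G : Type*} [Group G] {x : G} {a b : ℕ} (ha : x ^ a = 1) (hb : x ^ b = 1)
    (hab : Nat.Coprime a b) : x = 1 :=
  orderOf_eq_one_iff.1 (Nat.eq_one_of_dvd_coprimes hab (orderOf_dvd_of_pow_eq_one ha)
    (orderOf_dvd_of_pow_eq_one hb))

/-- the commutator with an element of order `7` is trivial as soon as it lies in a subgroup of
order prime to `7` commuting with it -/
theorem helper52_comm_trivial {G : Type*} [Group G] [Finite G] {K : Subgroup G} {l x : G}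
    (hl : l ^ 7 = 1) (hc7 : Nat.Coprime (Nat.card K) 7)
    (hc : l * x * l⁻¹ * x⁻¹ ∈ K) (hKl : ∀ k ∈ K, l * k = k * l) : l * x = x * l := by
  set c := l * x * l⁻¹ * x⁻¹ with hcdef
  have h1 : l * x * l⁻¹ = c * x := by
    rw [hcdef]
    group
  have h2 := helper52_comm_pow h1 (hKl c hc) 7
  rw [hl, inv_one, mul_one, one_mul] at h2
  have h3 : c ^ 7 = 1 := mul_right_cancel (h2.symm.trans (one_mul x).symm)
  have h4 : c ^ Nat.card K = 1 := by
    have h5 : (⟨c, hc⟩ : K) ^ Nat.card K = 1 := pow_card_eq_one'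
    exact congrArg Subtype.val h5
  have h5 : c = 1 := helper52_eq_one h4 h3 hc7
  rw [h5, one_mul] at h1
  exact mul_inv_eq_iff_eq_mul.1 h1

theorem struct7 {B C D w v : ℕ} (h : HypQ B C D) (hw : HypW B C D w) (hv : HypV B C D w v)
    (G : Type) [Group G] (hG : Nat.card G = 7 * (w ^ 3 * v ^ 2 * (B * C * D))) :
    (∃ (G₀ : Type) (_ : Group G₀), Nat.card G₀ = w ^ 3 * v ^ 2 * (B * C * D) ∧
      Nonempty (G ≃* Multiplicative (ZMod 7) × G₀)) ∨
    (∃ (F G₁ : Type) (_ : Group F) (_ : Group G₁), Nat.card F = 7 * D ∧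
      (∃ x y : F, x * y ≠ y * x) ∧ Nat.card G₁ = w ^ 3 * v ^ 2 * (B * C) ∧
      Nonempty (G ≃* F × G₁)) := by
  have p7 : Nat.Prime 7 := by norm_num
  have : Fact (Nat.Prime 7) := ⟨p7⟩
  have : Fact B.Prime := ⟨h.pB⟩
  have : Fact C.Prime := ⟨h.pC⟩
  have : Fact D.Prime := ⟨h.pD⟩
  have hBw := hw.Bw
  have hCw := hw.Cw
  have hDw := hw.Dw
  have hwv := HypV.w_lt hw hv
  have hB7 := h.B7
  have hC7 := h.C7
  have hD7 := h.D7
  have hBC := h.BC
  have hBD := h.BD
  have hCD := h.CD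
  set N := w ^ 3 * v ^ 2 * (B * C * D) with hN
  have hNpos : 0 < N :=
    Nat.mul_pos (Nat.mul_pos (pow_pos hw.pw.pos 3) (pow_pos hv.pv.pos 2))
      (Nat.mul_pos (Nat.mul_pos h.pB.pos h.pC.pos) h.pD.pos)
  have hfin : Finite G := Nat.finite_of_card_ne_zero (by rw [hG]; omega)
  -- primes not dividing things
  have hpp : ∀ {p q : ℕ}, p.Prime → q.Prime → p ≠ q → ¬ p ∣ q := fun hp hq hpq h1 =>
    hpq ((Nat.prime_dvd_prime_iff_eq hp hq).1 h1)
  have cop : ∀ {p q : ℕ}, p.Prime → q.Prime → p ≠ q → Nat.Coprime p q := fun hp hq hpq =>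
    (Nat.coprime_primes hp hq).2 hpq
  have cwv := cop hw.pw hv.pv (by omega)
  have cwB := cop hw.pw h.pB (by omega)
  have cwC := cop hw.pw h.pC (by omega)
  have cwD := cop hw.pw h.pD (by omega)
  have cw7 := cop hw.pw p7 (by omega)
  have cvB := cop hv.pv h.pB (by omega)
  have cvC := cop hv.pv h.pC (by omega)
  have cvD := cop hv.pv h.pD (by omega)
  have cv7 := cop hv.pv p7 (by omega)
  have cBC := cop h.pB h.pC hBC
  have cBD := cop h.pB h.pD hBD
  have cCD := cop h.pC h.pD hCD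
  have cB7 := cop h.pB p7 (by omega)
  have cC7 := cop h.pC p7 (by omega)
  have cD7 := cop h.pD p7 (by omega)
  have hB1 : ¬ B ∣ B - 1 := helper52_not_dvd (by omega) (by omega)
  have hC1 : ¬ C ∣ C - 1 := helper52_not_dvd (by omega) (by omega)
  have hD1 : ¬ D ∣ D - 1 := helper52_not_dvd (by omega) (by omega)
  have cN1 : Nat.Coprime N (B - 1) := helper52_coprime h hw hv h.pB hBw hB1 h.r2 h.r4
  have cN2 : Nat.Coprime N (C - 1) := helper52_coprime h hw hv h.pC hCw h.r1 hC1 h.r6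
  have cN3 : Nat.Coprime N (D - 1) := helper52_coprime h hw hv h.pD hDw h.r3 h.r5 hD1
  have cN6 : Nat.Coprime N 6 := by
    have c6 : ∀ {q : ℕ}, q.Prime → 7 < q → Nat.Coprime q 6 := fun {q} hq h7 =>
      (Nat.Prime.coprime_iff_not_dvd hq).2 (helper52_not_dvd (by norm_num) (by omega))
    exact Nat.Coprime.mul_left (Nat.Coprime.mul_left ((c6 hw.pw (by omega)).pow_left 3)
      ((c6 hv.pv (by omega)).pow_left 2)) (Nat.Coprime.mul_left (Nat.Coprime.mul_left
        (c6 h.pB hB7) (c6 h.pC hC7)) (c6 h.pD hD7))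
  have cN7 : Nat.Coprime N 7 :=
    Nat.Coprime.mul_left (Nat.Coprime.mul_left (cw7.pow_left 3) (cv7.pow_left 2))
      (Nat.Coprime.mul_left (Nat.Coprime.mul_left cB7 cC7) cD7)
  -- the quotient of order `B C 7`
  obtain ⟨f, hf⟩ := Pool.Agent.helper52.GNU.exists_hom_three (G := G) (B := B) (C := C) (D := 7)
    (N := w ^ 3 * v ^ 2 * D) h.pB h.pC p7 hBC (by omega) (by omega) (by rw [hG, hN]; ring)
    (by
      rw [h.pB.dvd_mul, h.pB.dvd_mul]
      rintro ((h1 | h1) | h1)
      · exact hpp h.pB hw.pw (by omega) (h.pB.dvd_of_dvd_pow h1)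
      · exact hpp h.pB hv.pv (by omega) (h.pB.dvd_of_dvd_pow h1)
      · exact hpp h.pB h.pD hBD h1)
    (by
      rw [h.pC.dvd_mul, h.pC.dvd_mul]
      rintro ((h1 | h1) | h1)
      · exact hpp h.pC hw.pw (by omega) (h.pC.dvd_of_dvd_pow h1)
      · exact hpp h.pC hv.pv (by omega) (h.pC.dvd_of_dvd_pow h1)
      · exact hpp h.pC h.pD hCD h1)
    (by
      rw [p7.dvd_mul, p7.dvd_mul]
      rintro ((h1 | h1) | h1)
      · exact hpp p7 hw.pw (by omega) (p7.dvd_of_dvd_pow h1)
      · exact hpp p7 hv.pv (by omega) (p7.dvd_of_dvd_pow h1)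
      · exact hpp p7 h.pD (by omega) h1)
    (by rw [hG]; exact Nat.Coprime.mul_left ((Nat.Prime.coprime_iff_not_dvd p7).2 h.b7) cN1)
    (by rw [hG]; exact Nat.Coprime.mul_left ((Nat.Prime.coprime_iff_not_dvd p7).2 h.c7) cN2)
    (by rw [hG]; exact Nat.Coprime.mul_left (by norm_num) cN6)
  have hAc : Nat.card (Multiplicative (ZMod B) × Multiplicative (ZMod C) ×
      Multiplicative (ZMod 7)) = B * C * 7 := by
    simp [mul_assoc]
  have hki : f.ker.index = B * C * 7 := by
    rw [Subgroup.index_ker, MonoidHom.range_eq_top.2 hf, ← hAc]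
    exact Nat.card_congr Subgroup.topEquiv.toEquiv
  have hkc : Nat.card f.ker = w ^ 3 * v ^ 2 * D := by
    have h3 := f.ker.card_mul_index
    rw [hki, hG, hN] at h3
    have h4 : 0 < B * C * 7 := Nat.mul_pos (Nat.mul_pos h.pB.pos h.pC.pos) (by norm_num)
    refine Nat.eq_of_mul_eq_mul_right h4 (h3.trans ?_)
    ring
  -- the quotient of order `7`
  let f7 : G →* Multiplicative (ZMod 7) :=
    ((MonoidHom.snd (Multiplicative (ZMod C)) _).comp
      (MonoidHom.snd (Multiplicative (ZMod B)) _)).comp f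
  have hf7 : Function.Surjective f7 := by
    intro y
    obtain ⟨g, hg⟩ := hf (1, 1, y)
    exact ⟨g, by show (f g).2.2 = y; rw [hg]⟩
  have h7i : f7.ker.index = 7 := by
    rw [Subgroup.index_ker, MonoidHom.range_eq_top.2 hf7]
    rw [Nat.card_congr (Subgroup.topEquiv (G := Multiplicative (ZMod 7))).toEquiv]
    simp
  have h7c : Nat.card f7.ker = N := by
    have h3 := f7.ker.card_mul_index
    rw [h7i, hG, mul_comm 7] at h3
    exact Nat.eq_of_mul_eq_mul_right (by norm_num) h3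
  -- an element of order `7`
  obtain ⟨l, hl⟩ := exists_prime_orderOf_dvd_card' (G := G) 7 (by rw [hG]; exact dvd_mul_right _ _)
  have hLc : Nat.card (zpowers l) = 7 := by rw [Nat.card_zpowers, hl]
  have hl7 : l ^ 7 = 1 := by rw [← hl]; exact pow_orderOf_eq_one l
  by_cases hcen : ∀ x : G, l * x = x * l
  · left
    obtain ⟨e⟩ := helper52_prod_equiv (zpowers l) f7.ker (by
      intro g hg x _
      obtain ⟨k, rfl⟩ := Subgroup.mem_zpowers_iff.1 hg
      exact (Commute.zpow_left (hcen x) k).eq) (by rw [hLc, h7c]; exact cN7.symm)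
      (by rw [hLc, h7c, hG])
    have e' : zpowers l ≃* Multiplicative (ZMod 7) := mulEquivOfPrimeCardEq hLc (by simp)
    exact ⟨f7.ker, inferInstance, h7c, ⟨e.trans (e'.prodCongr (MulEquiv.refl _))⟩⟩
  right
  push Not at hcen
  obtain ⟨x, hx⟩ := hcen
  -- the normal subgroup `K` of order `w ^ 3 * v ^ 2`
  have hnD : ¬ D ∣ w ^ 3 * v ^ 2 := by
    rw [h.pD.dvd_mul]
    rintro (h1 | h1)
    · exact hpp h.pD hw.pw (by omega) (h.pD.dvd_of_dvd_pow h1)
    · exact hpp h.pD hv.pv (by omega) (h.pD.dvd_of_dvd_pow h1)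
  have cKD : Nat.Coprime (w ^ 3 * v ^ 2) D := ((Nat.Prime.coprime_iff_not_dvd h.pD).2 hnD).symm
  have cK7 : Nat.Coprime (w ^ 3 * v ^ 2) 7 :=
    Nat.Coprime.mul_left (cw7.pow_left 3) (cv7.pow_left 2)
  obtain ⟨g, hg⟩ := Pool.Agent.helper52.GNU.exists_hom_zmod (G := f.ker) (m := w ^ 3 * v ^ 2) h.pD
    (by rw [hkc]; ring) hnD (by
      rw [hkc]
      exact Nat.Coprime.coprime_dvd_left ⟨B * C, by rw [hN]; ring⟩ cN3)
  have hgi : g.ker.index = D := by
    rw [Subgroup.index_ker, MonoidHom.range_eq_top.2 hg]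
    rw [Nat.card_congr (Subgroup.topEquiv (G := Multiplicative (ZMod D))).toEquiv]
    simp
  have hgc : Nat.card g.ker = w ^ 3 * v ^ 2 := by
    have h3 := g.ker.card_mul_index
    rw [hgi, hkc] at h3
    exact Nat.eq_of_mul_eq_mul_right h.pD.pos h3
  have hDpow : ∀ y : Multiplicative (ZMod D), y ^ D = 1 := by
    intro y
    have h3 : y ^ Nat.card (Multiplicative (ZMod D)) = 1 := pow_card_eq_one'
    simpa using h3
  have hgchar : g.ker.Characteristic := helper52_ker_char g (a := w ^ 3 * v ^ 2) (b := D)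
    (by
      intro y hy
      have h5 : (⟨y, hy⟩ : g.ker) ^ Nat.card g.ker = 1 := pow_card_eq_one'
      rw [hgc] at h5
      exact congrArg Subtype.val h5) hDpow cKD
  set K : Subgroup G := g.ker.map f.ker.subtype with hK
  have hKn : K.Normal := ConjAct.normal_of_characteristic_of_normal
  have hKc : Nat.card K = w ^ 3 * v ^ 2 := by
    rw [← hgc]
    exact (Nat.card_congr (g.ker.equivMapOfInjective _ f.ker.subtype_injective).toEquiv).symm
  have hKpow : ∀ y ∈ K, y ^ (w ^ 3 * v ^ 2) = 1 := by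
    intro y hy
    have h5 : (⟨y, hy⟩ : K) ^ Nat.card K = 1 := pow_card_eq_one'
    rw [hKc] at h5
    exact congrArg Subtype.val h5
  have hKmem : ∀ y ∈ f.ker, y ^ (w ^ 3 * v ^ 2) = 1 → y ∈ K := by
    intro y hy hy1
    refine ⟨⟨y, hy⟩, ?_, rfl⟩
    show g ⟨y, hy⟩ = 1
    have h5 : (g ⟨y, hy⟩) ^ (w ^ 3 * v ^ 2) = 1 := by
      rw [← map_pow]
      have h6 : (⟨y, hy⟩ : f.ker) ^ (w ^ 3 * v ^ 2) = 1 := Subtype.ext hy1
      rw [h6, map_one]
    exact helper52_eq_one h5 (hDpow _) cKD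
  obtain ⟨W', V', hW'char, hV'char, hW'c, hV'c, -⟩ := Pool.Agent.helper52.GNU.sylow_char (K := K)
    hw.pw hv.pv hv.wv (by simpa using helper52_vmod hw.pw (hv.vw 1 one_pos one_le_two))
    (helper52_vmod hw.pw (hv.vw 2 two_pos le_rfl)) hKc
  have hWn : (W'.map K.subtype).Normal := ConjAct.normal_of_characteristic_of_normal
  have hVn : (V'.map K.subtype).Normal := ConjAct.normal_of_characteristic_of_normal
  have hWc : Nat.card (W'.map K.subtype) = w ^ 3 := by
    rw [← hW'c]
    exact (Nat.card_congr (W'.equivMapOfInjective _ K.subtype_injective).toEquiv).symm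
  have hVc : Nat.card (V'.map K.subtype) = v ^ 2 := by
    rw [← hV'c]
    exact (Nat.card_congr (V'.equivMapOfInjective _ K.subtype_injective).toEquiv).symm
  have hLp : IsPGroup 7 (zpowers l) := IsPGroup.of_card (n := 1) (by rw [hLc, pow_one])
  have hlW : ∀ y ∈ W'.map K.subtype, l * y = y * l :=
    helper52_commute p7 hw.pw (by omega) hw.w7 (zpowers l) (W'.map K.subtype) hLp hWc
      (le_of_le_of_eq le_top (W'.map K.subtype).normalizer_eq_top.symm) l (mem_zpowers l)
  have hlV : ∀ y ∈ V'.map K.subtype, l * y = y * l :=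
    helper52_commute p7 hv.pv (by omega) hv.v7 (zpowers l) (V'.map K.subtype) hLp hVc
      (le_of_le_of_eq le_top (V'.map K.subtype).normalizer_eq_top.symm) l (mem_zpowers l)
  have hKl : ∀ k ∈ K, l * k = k * l := by
    have h3 : K ⊓ centralizer {l} = K := by
      apply Subgroup.eq_of_le_of_card_ge inf_le_left
      rw [hKc]
      apply Nat.le_of_dvd Nat.card_pos
      refine Nat.Coprime.mul_dvd_of_dvd_of_dvd ((cwv.pow_left 3).pow_right 2) ?_ ?_
      · rw [← hWc]
        exact Subgroup.card_dvd_of_le (le_inf (Subgroup.map_subtype_le W') (fun y hy => by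
          rw [Subgroup.mem_centralizer_singleton_iff]
          exact (hlW y hy).symm))
      · rw [← hVc]
        exact Subgroup.card_dvd_of_le (le_inf (Subgroup.map_subtype_le V') (fun y hy => by
          rw [Subgroup.mem_centralizer_singleton_iff]
          exact (hlV y hy).symm))
    intro k hk
    rw [← h3] at hk
    exact (Subgroup.mem_centralizer_singleton_iff.1 hk.2).symm
  -- the commutator
  set c := l * x * l⁻¹ * x⁻¹ with hcdef
  have hcomker : ∀ y : G, l * y * l⁻¹ * y⁻¹ ∈ f.ker := by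
    intro y
    rw [MonoidHom.mem_ker, map_mul, map_mul, map_mul, map_inv, map_inv]
    rw [mul_comm (f l) (f y), mul_inv_cancel_right, mul_inv_cancel]
  have hcf : c ∈ f.ker := hcomker x
  have hcK : c ∉ K := fun hc => hx (helper52_comm_trivial hl7 (by rw [hKc]; exact cK7) hc hKl)
  have hcent : c ∈ centralizer (K : Set G) := by
    have hlc : l ∈ centralizer (K : Set G) := by
      rw [Subgroup.mem_centralizer_iff]
      exact fun k hk => (hKl k hk).symm
    have h3 : x * l⁻¹ * x⁻¹ ∈ centralizer (K : Set G) :=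
      (inferInstance : (centralizer (K : Set G)).Normal).conj_mem _ (Subgroup.inv_mem _ hlc) x
    have h4 : c = l * (x * l⁻¹ * x⁻¹) := by
      rw [hcdef]
      group
    rw [h4]
    exact Subgroup.mul_mem _ hlc h3
  set δ := c ^ (w ^ 3 * v ^ 2) with hδ
  have hδf : δ ∈ f.ker := Subgroup.pow_mem _ hcf _
  have hδD : δ ^ D = 1 := by
    have h5 : (⟨c, hcf⟩ : f.ker) ^ Nat.card f.ker = 1 := pow_card_eq_one'
    rw [hkc] at h5
    rw [hδ, ← pow_mul]
    exact congrArg Subtype.val h5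
  have hδ1 : δ ≠ 1 := fun h3 => hcK (hKmem c hcf h3)
  have hδcent : δ ∈ centralizer (K : Set G) := Subgroup.pow_mem _ hcent _
  have hδo : orderOf δ = D := orderOf_eq_prime hδD hδ1
  have hΔc : Nat.card (zpowers δ) = D := by rw [Nat.card_zpowers, hδo]
  have hΔmem : ∀ y ∈ f.ker, y ^ D = 1 → y ∈ zpowers δ := by
    intro y hy hyD
    have hgδ : g ⟨δ, hδf⟩ ≠ 1 := by
      intro h3
      apply hδ1
      have h4 : δ ∈ K := ⟨⟨δ, hδf⟩, h3, rfl⟩
      exact helper52_eq_one (hKpow δ h4) hδD cKD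
    have h3 : g ⟨y, hy⟩ ∈ zpowers (g ⟨δ, hδf⟩) :=
      mem_zpowers_of_prime_card (p := D) (by simp) hgδ
    obtain ⟨i, hi⟩ := Subgroup.mem_zpowers_iff.1 h3
    have h4 : y * (δ ^ i)⁻¹ ∈ K := by
      refine ⟨⟨y, hy⟩ * ((⟨δ, hδf⟩ : f.ker) ^ i)⁻¹, ?_, rfl⟩
      show g _ = 1
      rw [map_mul, map_inv, map_zpow, hi, mul_inv_cancel]
    have h5 : Commute (y * (δ ^ i)⁻¹) (δ ^ i) :=
      (Subgroup.mem_centralizer_iff.1 (Subgroup.zpow_mem _ hδcent i) _ h4)
    have h6 : y = (y * (δ ^ i)⁻¹) * δ ^ i := by group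
    have h7 : (y * (δ ^ i)⁻¹) ^ D = 1 := by
      have h8 := h5.mul_pow D
      rw [← h6, hyD] at h8
      have h9 : (δ ^ i) ^ D = 1 := by
        rw [← zpow_natCast, ← zpow_mul, mul_comm, zpow_mul, zpow_natCast, hδD, one_zpow]
      rw [h9, mul_one] at h8
      exact h8.symm
    have h8 := helper52_eq_one (hKpow _ h4) h7 cKD
    rw [h8, one_mul] at h6
    rw [h6]
    exact Subgroup.zpow_mem _ (mem_zpowers δ) i
  have hΔn : (zpowers δ).Normal := by
    refine ⟨fun n hn y => ?_⟩
    obtain ⟨i, rfl⟩ := Subgroup.mem_zpowers_iff.1 hn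
    apply hΔmem
    · exact (inferInstance : f.ker.Normal).conj_mem _ (Subgroup.zpow_mem _ hδf i) y
    · rw [conj_pow]
      have h9 : (δ ^ i) ^ D = 1 := by
        rw [← zpow_natCast, ← zpow_mul, mul_comm, zpow_mul, zpow_natCast, hδD, one_zpow]
      rw [h9]
      group
  -- `ker f7` centralises `δ`
  have h7δ : ∀ y ∈ f7.ker, y * δ = δ * y := by
    intro y hy
    have hcyc : IsCyclic (zpowers δ) := inferInstance
    have h3 : (MulAut.conjNormal y : MulAut (zpowers δ)) ^ N = 1 := by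
      rw [← map_pow]
      have h5 : (⟨y, hy⟩ : f7.ker) ^ Nat.card f7.ker = 1 := pow_card_eq_one'
      rw [h7c] at h5
      have h6 : y ^ N = 1 := congrArg Subtype.val h5
      rw [h6, map_one]
    have h4 : (MulAut.conjNormal y : MulAut (zpowers δ)) ^ (D - 1) = 1 := by
      have h5 : (MulAut.conjNormal y : MulAut (zpowers δ)) ^ Nat.card (MulAut (zpowers δ)) = 1 :=
        pow_card_eq_one'
      rwa [hcyc.card_mulAut, hΔc, Nat.totient_prime h.pD] at h5
    have h5 := helper52_eq_one h3 h4 cN3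
    have h6 := congrArg (fun a : MulAut (zpowers δ) => ((a ⟨δ, mem_zpowers δ⟩ : zpowers δ) : G)) h5
    simp only [MulAut.conjNormal_apply, MulAut.one_apply] at h6
    exact mul_inv_eq_iff_eq_mul.1 h6
  -- the normal complement of `δ` in `ker f7`
  obtain ⟨g2, hg2⟩ := Pool.Agent.helper52.GNU.exists_hom_zmod (G := f7.ker)
    (m := w ^ 3 * v ^ 2 * (B * C)) h.pD (by rw [h7c, hN]; ring) (by
      intro h1
      rcases (h.pD.dvd_mul).1 h1 with h1 | h1
      · exact hnD h1
      · rcases (h.pD.dvd_mul).1 h1 with h1 | h1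
        · exact hpp h.pD h.pB (Ne.symm hBD) h1
        · exact hpp h.pD h.pC (Ne.symm hCD) h1) (by rw [h7c]; exact cN3)
  have hg2i : g2.ker.index = D := by
    rw [Subgroup.index_ker, MonoidHom.range_eq_top.2 hg2]
    rw [Nat.card_congr (Subgroup.topEquiv (G := Multiplicative (ZMod D))).toEquiv]
    simp
  have hg2c : Nat.card g2.ker = w ^ 3 * v ^ 2 * (B * C) := by
    have h3 := g2.ker.card_mul_index
    rw [hg2i, h7c, hN] at h3
    refine Nat.eq_of_mul_eq_mul_right h.pD.pos (h3.trans ?_)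
    ring
  have cN1D : Nat.Coprime (w ^ 3 * v ^ 2 * (B * C)) D :=
    Nat.Coprime.mul_left cKD (Nat.Coprime.mul_left cBD cCD)
  have cN17 : Nat.Coprime (w ^ 3 * v ^ 2 * (B * C)) 7 :=
    Nat.Coprime.mul_left cK7 (Nat.Coprime.mul_left cB7 cC7)
  have hg2char : g2.ker.Characteristic := helper52_ker_char g2 (a := w ^ 3 * v ^ 2 * (B * C))
    (b := D) (by
      intro y hy
      have h5 : (⟨y, hy⟩ : g2.ker) ^ Nat.card g2.ker = 1 := pow_card_eq_one'
      rw [hg2c] at h5
      exact congrArg Subtype.val h5) hDpow cN1D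
  set N1 : Subgroup G := g2.ker.map f7.ker.subtype with hN1
  have hN1n : N1.Normal := ConjAct.normal_of_characteristic_of_normal
  have hN1c : Nat.card N1 = w ^ 3 * v ^ 2 * (B * C) := by
    rw [← hg2c]
    exact (Nat.card_congr (g2.ker.equivMapOfInjective _ f7.ker.subtype_injective).toEquiv).symm
  have hN1l : ∀ y ∈ N1, l * y = y * l := by
    intro y hy
    apply helper52_comm_trivial (K := K) hl7 (by rw [hKc]; exact cK7) ?_ hKl
    apply hKmem _ (hcomker y)
    have h3 : l * y * l⁻¹ * y⁻¹ ∈ N1 := N1.mul_mem (hN1n.conj_mem y hy l) (N1.inv_mem hy)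
    have h4 : orderOf (l * y * l⁻¹ * y⁻¹) ∣ w ^ 3 * v ^ 2 * (B * C) := by
      apply orderOf_dvd_of_pow_eq_one
      have h5 : (⟨_, h3⟩ : N1) ^ Nat.card N1 = 1 := pow_card_eq_one'
      rw [hN1c] at h5
      exact congrArg Subtype.val h5
    have h5 : orderOf (l * y * l⁻¹ * y⁻¹) ∣ w ^ 3 * v ^ 2 * D := by
      apply orderOf_dvd_of_pow_eq_one
      have h5 : (⟨_, hcomker y⟩ : f.ker) ^ Nat.card f.ker = 1 := pow_card_eq_one'
      rw [hkc] at h5
      exact congrArg Subtype.val h5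
    have h6 := Nat.dvd_gcd h4 h5
    rw [Nat.gcd_mul_left, show Nat.gcd (B * C) D = 1 from Nat.Coprime.mul_left cBD cCD,
      mul_one] at h6
    exact orderOf_dvd_iff_pow_eq_one.1 h6
  have hN1δ : ∀ y ∈ N1, δ * y = y * δ := fun y hy =>
    (h7δ y (Subgroup.map_subtype_le _ hy)).symm
  -- the Frobenius group
  set F : Subgroup G := zpowers δ ⊔ zpowers l with hF
  have hδF : δ ∈ F := Subgroup.mem_sup_left (mem_zpowers δ)
  have hlF : l ∈ F := Subgroup.mem_sup_right (mem_zpowers l)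
  have hFc : Nat.card F = 7 * D := by
    apply le_antisymm
    · have h3 : Nat.card F ≤ Nat.card (zpowers δ) * Nat.card (zpowers l) := by
        have h4 : ((F : Subgroup G) : Set G) = (zpowers δ : Set G) * (zpowers l : Set G) :=
          Subgroup.normal_mul (zpowers δ) (zpowers l)
        have h5 : Nat.card ((F : Subgroup G) : Set G) ≤
            Nat.card (zpowers δ : Set G) * Nat.card (zpowers l : Set G) := by
          rw [h4]
          exact Set.natCard_mul_le
        exact h5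
      rw [hΔc, hLc] at h3
      linarith
    · apply Nat.le_of_dvd Nat.card_pos
      refine Nat.Coprime.mul_dvd_of_dvd_of_dvd cD7.symm ?_ ?_
      · rw [← hLc]
        exact Subgroup.card_dvd_of_le le_sup_right
      · rw [← hΔc]
        exact Subgroup.card_dvd_of_le le_sup_left
  have hFN : ∀ a ∈ F, ∀ y ∈ N1, a * y = y * a := by
    intro a ha y hy
    have h3 : F ≤ centralizer (N1 : Set G) := by
      rw [hF, sup_le_iff, Subgroup.zpowers_le, Subgroup.zpowers_le]
      exact ⟨Subgroup.mem_centralizer_iff.2 fun k hk => (hN1δ k hk).symm,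
        Subgroup.mem_centralizer_iff.2 fun k hk => (hN1l k hk).symm⟩
    exact (Subgroup.mem_centralizer_iff.1 (h3 ha) y hy).symm
  have hna : l * δ ≠ δ * l := by
    intro h3
    have h4 : centralizer {l} = (⊤ : Subgroup G) := by
      apply Subgroup.eq_top_of_le_card
      rw [hG]
      apply Nat.le_of_dvd Nat.card_pos
      have h5 : N = w ^ 3 * v ^ 2 * (B * C) * D := by rw [hN]; ring
      rw [h5]
      refine Nat.Coprime.mul_dvd_of_dvd_of_dvd (Nat.Coprime.mul_left cN17 cD7).symm ?_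
        (Nat.Coprime.mul_dvd_of_dvd_of_dvd cN1D ?_ ?_)
      · rw [← hLc]
        refine Subgroup.card_dvd_of_le ?_
        rw [Subgroup.zpowers_le, Subgroup.mem_centralizer_singleton_iff]
      · rw [← hN1c]
        refine Subgroup.card_dvd_of_le fun y hy => ?_
        rw [Subgroup.mem_centralizer_singleton_iff]
        exact (hN1l y hy).symm
      · rw [← hΔc]
        refine Subgroup.card_dvd_of_le ?_
        rw [Subgroup.zpowers_le, Subgroup.mem_centralizer_singleton_iff]
        exact h3.symm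
    have h5 : x ∈ centralizer {l} := by rw [h4]; exact Subgroup.mem_top x
    exact hx (Subgroup.mem_centralizer_singleton_iff.1 h5).symm
  refine ⟨F, N1, inferInstance, inferInstance, hFc, ⟨⟨l, hlF⟩, ⟨δ, hδF⟩, fun h3 =>
    hna (congrArg Subtype.val h3)⟩, hN1c, ?_⟩
  refine helper52_prod_equiv F N1 hFN ?_ ?_
  · rw [hFc, hN1c]
    exact Nat.Coprime.mul_left cN17.symm cN1D.symm
  · rw [hFc, hN1c, hG, hN]
    ring

end Pool.Agent.helper74.GN
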