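import Pool.Agent.helper52.GN.GN2

/-!
GNU project, module GN4a: `D` acts trivially iff the group has a direct factor of order `D`.
-/

set_option autoImplicit false

open Subgroup

namespace Pool.Agent.helper74.GN

theorem helper52_card_mz (n : ℕ) : Nat.card (Multiplicative (ZMod n)) = n :=
  (Nat.card_congr Multiplicative.toAdd).trans (Nat.card_zmod n)

theorem helper52_card_Q {B C D : ℕ} : Nat.card (Q B C D) = B * C * D := by
  rw [Q, Nat.card_prod, Nat.card_prod, helper52_card_mz, helper52_card_mz, helper52_card_mz,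
    mul_assoc]

theorem helper52_sc_sc {n : ℕ} (u : (ZMod n)ˣ) (z : Multiplicative (ZMod n)) :
    sc u (sc u⁻¹ z) = z := by
  rw [sc_apply, sc_apply, toAdd_ofAdd, ← mul_assoc, Units.mul_inv, one_mul, ofAdd_toAdd]

theorem helper52_card_Fam {B C D N₁ N₂ : ℕ} (M₁ : Menu B C D N₁) (M₂ : Menu B C D N₂)
    (t : M₁.τ) (t' : M₂.τ) (θ : Th B C D) :
    Nat.card (Fam M₁ M₂ t t' θ) = N₁ * N₂ * (B * C * D) := by
  rw [SemidirectProduct.card, Nat.card_prod, M₁.card, M₂.card, helper52_card_Q]

theorem helper52_N_pos {B C D w v : ℕ} (h : HypQ B C D) (hw : HypW B C D w)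
    (hv : HypV B C D w v) : 0 < w ^ 3 * v ^ 2 * (B * C * D) :=
  Nat.mul_pos (Nat.mul_pos (pow_pos hw.pw.pos 3) (pow_pos hv.pv.pos 2))
    (Nat.mul_pos (Nat.mul_pos h.pB.pos h.pC.pos) h.pD.pos)

theorem helper52_coprime_D {B C D w v : ℕ} (h : HypQ B C D) (hw : HypW B C D w)
    (hv : HypV B C D w v) : Nat.Coprime D (w ^ 3 * v ^ 2 * (B * C)) := by
  have cop : ∀ {p q : ℕ}, p.Prime → q.Prime → p ≠ q → Nat.Coprime p q := fun hp hq hpq =>
    (Nat.coprime_primes hp hq).2 hpq
  have hDw := hw.Dw
  have hwv := HypV.w_lt hw hv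
  refine Nat.Coprime.mul_right (Nat.Coprime.mul_right ?_ ?_) (Nat.Coprime.mul_right ?_ ?_)
  · exact (cop h.pD hw.pw (by omega)).pow_right 3
  · exact (cop h.pD hv.pv (by omega)).pow_right 2
  · exact cop h.pD h.pB (Ne.symm h.BD)
  · exact cop h.pD h.pC (Ne.symm h.CD)

theorem fam_split {B C D w v : ℕ} (h : HypQ B C D) (hw : HypW B C D w)
    (hv : HypV B C D w v) (M₁ : Menu B C D (w ^ 3)) (M₂ : Menu B C D (v ^ 2))
    (t : M₁.τ) (t' : M₂.τ) (θ : Th B C D) :
    (M₁.DT t ∧ M₂.DT t') ↔ ∃ (G₁ : Type) (_ : Group G₁),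
      Nonempty (Fam M₁ M₂ t t' θ ≃* Multiplicative (ZMod D) × G₁) := by
  have : Fact D.Prime := ⟨h.pD⟩
  have hcard := helper52_card_Fam M₁ M₂ t t' θ
  have hNpos := helper52_N_pos h hw hv
  have hfin : Finite (Fam M₁ M₂ t t' θ) := Nat.finite_of_card_ne_zero (by rw [hcard]; omega)
  constructor
  · rintro ⟨h1, h2⟩
    -- the projection to `C_D`
    let p : Fam M₁ M₂ t t' θ →* Multiplicative (ZMod D) :=
      ((MonoidHom.snd (Multiplicative (ZMod C)) _).comp
        (MonoidHom.snd (Multiplicative (ZMod B)) _)).comp SemidirectProduct.rightHom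
    let i : Multiplicative (ZMod D) →* Fam M₁ M₂ t t' θ :=
      SemidirectProduct.inr.comp ((MonoidHom.inr (Multiplicative (ZMod B)) _).comp
        (MonoidHom.inr (Multiplicative (ZMod C)) _))
    have hi : ∀ z, i z = SemidirectProduct.inr (1, 1, z) := fun z => rfl
    have hpi : ∀ z, p (i z) = z := fun z => rfl
    have hp : Function.Surjective p := fun z => ⟨i z, hpi z⟩
    have hii : Function.Injective i := fun a b hab => by
      rw [← hpi a, hab, hpi b]
    have hpki : p.ker.index = D := by
      rw [Subgroup.index_ker, MonoidHom.range_eq_top.2 hp]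
      rw [Nat.card_congr (Subgroup.topEquiv (G := Multiplicative (ZMod D))).toEquiv]
      simp
    have hpkc : Nat.card p.ker = w ^ 3 * v ^ 2 * (B * C) := by
      have h3 := p.ker.card_mul_index
      rw [hpki, hcard] at h3
      refine Nat.eq_of_mul_eq_mul_right h.pD.pos (h3.trans ?_)
      ring
    have hic : Nat.card i.range = D := by
      rw [← Nat.card_congr (MonoidHom.ofInjective hii).toEquiv]
      simp
    obtain ⟨e⟩ := helper52_prod_equiv i.range p.ker (by
      rintro _ ⟨z, rfl⟩ x _
      rw [hi]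
      have h3 : M₁.φ t (tw θ (1, 1, z)) = 1 := by
        have h4 : tw θ ((1 : Multiplicative (ZMod B)), (1 : Multiplicative (ZMod C)), z) =
            (1, 1, sc θ.2.2 z) := by
          rw [tw_apply]
          simp only [map_one]
        rw [h4]
        exact h1 _
      have h4 := h2 z
      have h5 : ∀ y : M₁.A t × M₂.A t',
          pairHom ((M₁.φ t).comp (tw θ).toMonoidHom) (M₂.φ t') (1, 1, z) y = y := by
        intro y
        show (M₁.φ t (tw θ (1, 1, z)) y.1, M₂.φ t' (1, 1, z) y.2) = y
        rw [h3, h4]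
        rfl
      refine SemidirectProduct.ext ?_ ?_
      · rw [SemidirectProduct.mul_left, SemidirectProduct.mul_left,
          SemidirectProduct.left_inr, SemidirectProduct.right_inr, one_mul, h5, map_one, mul_one]
      · rw [SemidirectProduct.mul_right, SemidirectProduct.mul_right,
          SemidirectProduct.right_inr, mul_comm])
      (by rw [hic, hpkc]; exact helper52_coprime_D h hw hv)
      (by rw [hic, hpkc, hcard]; ring)
    have e' : i.range ≃* Multiplicative (ZMod D) := (MonoidHom.ofInjective hii).symm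
    exact ⟨p.ker, inferInstance, ⟨e.trans (e'.prodCongr (MulEquiv.refl _))⟩⟩
  · rintro ⟨G₁, iG₁, ⟨e⟩⟩
    have hc1 : Nat.card G₁ = w ^ 3 * v ^ 2 * (B * C) := by
      have h3 := Nat.card_congr e.toEquiv
      rw [hcard, Nat.card_prod] at h3
      have h4 : Nat.card (Multiplicative (ZMod D)) = D := by simp
      rw [h4] at h3
      refine Nat.eq_of_mul_eq_mul_left h.pD.pos (h3.symm.trans ?_)
      ring
    -- elements of order dividing `D` are central
    have hcen : ∀ x : Fam M₁ M₂ t t' θ, x ^ D = 1 → ∀ y, x * y = y * x := by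
      intro x hx y
      apply e.injective
      have h3 : (e x).2 = 1 := by
        apply helper52_eq_one (a := D) (b := Nat.card G₁)
        · rw [← Prod.pow_snd, ← map_pow, hx, map_one]
          rfl
        · exact pow_card_eq_one'
        · rw [hc1]
          exact helper52_coprime_D h hw hv
      rw [map_mul, map_mul]
      refine Prod.ext ?_ ?_
      · exact mul_comm _ _
      · rw [Prod.snd_mul, Prod.snd_mul, h3, one_mul, mul_one]
    have hpow : ∀ z : Multiplicative (ZMod D),
        (SemidirectProduct.inr (1, 1, z) : Fam M₁ M₂ t t' θ) ^ D = 1 := by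
      intro z
      rw [← map_pow]
      have h3 : ((1 : Multiplicative (ZMod B)), (1 : Multiplicative (ZMod C)), z) ^ D = 1 := by
        have h4 : z ^ Nat.card (Multiplicative (ZMod D)) = 1 := pow_card_eq_one'
        have h5 : z ^ D = 1 := by simpa using h4
        refine Prod.ext (one_pow _) (Prod.ext (one_pow _) h5)
      rw [h3, map_one]
    have hact : ∀ (z : Multiplicative (ZMod D)) (y : M₁.A t × M₂.A t'),
        pairHom ((M₁.φ t).comp (tw θ).toMonoidHom) (M₂.φ t') (1, 1, z) y = y := by
      intro z y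
      have h3 := hcen _ (hpow z) (SemidirectProduct.inl y)
      have h4 := congrArg SemidirectProduct.left h3
      rwa [SemidirectProduct.mul_left, SemidirectProduct.mul_left,
        SemidirectProduct.left_inr, SemidirectProduct.right_inr, one_mul, SemidirectProduct.left_inl,
        SemidirectProduct.right_inl, map_one, mul_one] at h4
    constructor
    · intro z
      refine MulEquiv.ext fun a => ?_
      have h3 := congrArg Prod.fst (hact (sc θ.2.2⁻¹ z) (a, 1))
      have h4 : tw θ ((1 : Multiplicative (ZMod B)), (1 : Multiplicative (ZMod C)),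
          sc θ.2.2⁻¹ z) = (1, 1, z) := by
        rw [tw_apply]
        simp only [map_one, Prod.mk.injEq, true_and]
        exact helper52_sc_sc _ _
      have h5 : (M₁.φ t) (tw θ (1, 1, sc θ.2.2⁻¹ z)) a = a := h3
      rw [h4] at h5
      exact h5
    · intro z
      refine MulEquiv.ext fun a => ?_
      exact congrArg Prod.snd (hact z (1, a))

end Pool.Agent.helper74.GN
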