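import Pool.Agent.helper52.GN.GN4a
import Pool.Agent.helper96.GN.GN3a
import Pool.Agent.helper96.GN.GN3c
import Pool.Agent.helper40.GN.Frob

/-!
GNU project, module GN4b: classification of the groups of order `7 N` (given the uniqueness of the
Frobenius group of order `7 D`).
-/

set_option autoImplicit false

open Subgroup

namespace Pool.Agent.helper74.GN

/-- Cancellation of a direct factor of coprime order. -/
theorem helper52_cancel {A A' X Y : Type} [Group A] [Group A'] [Group X] [Group Y] [Finite A']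
    [Finite X] [Finite Y] (e : A × X ≃* A' × Y) (hXY : Nat.card X = Nat.card Y)
    (hc : Nat.Coprime (Nat.card A') (Nat.card X)) : Nonempty (X ≃* Y) := by
  let f : X →* Y := (MonoidHom.snd A' Y).comp (e.toMonoidHom.comp (MonoidHom.inr A X))
  have hf : Function.Injective f := by
    rw [injective_iff_map_eq_one]
    intro x hx
    have h1 : (e (1, x)).2 = 1 := hx
    have h2 : (e (1, x)).1 = 1 := by
      apply helper52_eq_one (a := Nat.card A') (b := Nat.card X)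
      · exact pow_card_eq_one'
      · rw [← Prod.pow_fst, ← map_pow]
        have h3 : ((1 : A), x) ^ Nat.card X = 1 := Prod.ext (one_pow _) pow_card_eq_one'
        rw [h3, map_one]
        rfl
      · exact hc
    have h3 : e (1, x) = 1 := Prod.ext h2 h1
    have h4 : ((1 : A), x) = 1 := (map_eq_one_iff e e.injective).1 h3
    exact congrArg Prod.snd h4
  exact ⟨MulEquiv.ofBijective f ((Nat.bijective_iff_injective_and_card _).2 ⟨hf, hXY⟩)⟩

/-- A group of order `7 D` whose elements of exponent `7` are central is commutative. -/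
theorem helper52_frob_comm {F : Type} [Group F] {D : ℕ} (hD : D.Prime) (h7 : 7 < D)
    (hc : Nat.card F = 7 * D) (hcen : ∀ x : F, x ^ 7 = 1 → ∀ y, x * y = y * x) (a b : F) :
    a * b = b * a := by
  have p7 : Nat.Prime 7 := by norm_num
  have : Fact (Nat.Prime 7) := ⟨p7⟩
  have : Fact D.Prime := ⟨hD⟩
  have hfin : Finite F := Nat.finite_of_card_ne_zero (by rw [hc]; omega)
  obtain ⟨l, hl⟩ := exists_prime_orderOf_dvd_card' (G := F) 7 (by rw [hc]; exact dvd_mul_right _ _)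
  obtain ⟨d, hd⟩ := exists_prime_orderOf_dvd_card' (G := F) D (by rw [hc]; exact dvd_mul_left _ _)
  have hl7 : l ^ 7 = 1 := by rw [← hl]; exact pow_orderOf_eq_one l
  have hlc : Nat.card (zpowers l) = 7 := by rw [Nat.card_zpowers, hl]
  have hdc : Nat.card (zpowers d) = D := by rw [Nat.card_zpowers, hd]
  obtain ⟨e⟩ := helper52_prod_equiv (zpowers l) (zpowers d) (by
    intro g hg x _
    obtain ⟨k, rfl⟩ := Subgroup.mem_zpowers_iff.1 hg
    exact (Commute.zpow_left (hcen l hl7 x) k).eq)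
    (by rw [hlc, hdc]; exact (Nat.coprime_primes p7 hD).2 (by omega)) (by rw [hlc, hdc, hc])
  apply e.injective
  rw [map_mul, map_mul]
  refine Prod.ext ?_ ?_
  · obtain ⟨i, hi⟩ := Subgroup.mem_zpowers_iff.1 (e a).1.2
    obtain ⟨j, hj⟩ := Subgroup.mem_zpowers_iff.1 (e b).1.2
    apply Subtype.ext
    rw [Prod.fst_mul, Prod.fst_mul, Subgroup.coe_mul, Subgroup.coe_mul, ← hi, ← hj, ← zpow_add,
      ← zpow_add, add_comm]
  · obtain ⟨i, hi⟩ := Subgroup.mem_zpowers_iff.1 (e a).2.2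
    obtain ⟨j, hj⟩ := Subgroup.mem_zpowers_iff.1 (e b).2.2
    apply Subtype.ext
    rw [Prod.snd_mul, Prod.snd_mul, Subgroup.coe_mul, Subgroup.coe_mul, ← hi, ← hj, ← zpow_add,
      ← zpow_add, add_comm]

/-- Groups of order prime to `7` times the cyclic group of order `7`, against a Frobenius group. -/
theorem helper52_not_iso {F X Y : Type} [Group F] [Group X] [Group Y] {D : ℕ} (hD : D.Prime)
    (h7 : 7 < D) (hc : Nat.card F = 7 * D) (hnc : ∃ x y : F, x * y ≠ y * x) [Finite X]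
    (hX : Nat.Coprime (Nat.card X) 7) (e : Multiplicative (ZMod 7) × X ≃* F × Y) : False := by
  obtain ⟨a, b, hab⟩ := hnc
  apply hab
  apply helper52_frob_comm hD h7 hc
  intro x hx y
  have h1 : e.symm (x, 1) ^ 7 = 1 := by
    rw [← map_pow]
    have h2 : (x, (1 : Y)) ^ 7 = 1 := Prod.ext hx (one_pow _)
    rw [h2, map_one]
  have h2 : (e.symm (x, 1)).2 = 1 := by
    apply helper52_eq_one (a := Nat.card X) (b := 7)
    · exact pow_card_eq_one'
    · rw [← Prod.pow_snd, h1]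
      rfl
    · exact hX
  have h3 : e.symm (x, 1) * e.symm (y, 1) = e.symm (y, 1) * e.symm (x, 1) := by
    refine Prod.ext ?_ ?_
    · exact mul_comm _ _
    · rw [Prod.snd_mul, Prod.snd_mul, h2, one_mul, mul_one]
  rw [← map_mul, ← map_mul] at h3
  have h4 := e.symm.injective h3
  exact congrArg Prod.fst h4

theorem classify7_of {B C D w v : ℕ} (h : HypQ B C D) (hw : HypW B C D w)
    (hv : HypV B C D w v) (M₁ : Menu B C D (w ^ 3)) (M₂ : Menu B C D (v ^ 2))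
    (frob : ∃ (F : Type) (_ : Group F), Nat.card F = 7 * D ∧ (∃ x y : F, x * y ≠ y * x) ∧
      ∀ (F' : Type) [Group F'], Nat.card F' = 7 * D → (∃ x y : F', x * y ≠ y * x) →
        Nonempty (F' ≃* F)) :
    Classified (7 * (w ^ 3 * v ^ 2 * (B * C * D))) (Idx M₁ M₂ ⊕ IdxD M₁ M₂) := by
  classical
  have p7 : Nat.Prime 7 := by norm_num
  have : Fact (Nat.Prime 7) := ⟨p7⟩
  have : Fact D.Prime := ⟨h.pD⟩
  obtain ⟨F, iF, hFc, hFn, hFu⟩ := frob
  have hNpos := helper52_N_pos h hw hv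
  have hFfin : Finite F := Nat.finite_of_card_ne_zero (by rw [hFc]; have := h.D7; omega)
  have hfamfin : ∀ t t' θ, Finite (Fam M₁ M₂ t t' θ) := fun t t' θ =>
    Nat.finite_of_card_ne_zero (by rw [helper52_card_Fam]; omega)
  -- the complement of `C_D`
  have hsp : ∀ (p : {p : M₁.τ × M₂.τ // M₁.DT p.1 ∧ M₂.DT p.2}) (θ : Th B C D),
      ∃ (G₁ : Type) (_ : Group G₁),
        Nonempty (Fam M₁ M₂ p.1.1 p.1.2 θ ≃* Multiplicative (ZMod D) × G₁) := fun p θ =>
    (fam_split h hw hv M₁ M₂ p.1.1 p.1.2 θ).1 p.2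
  choose G₁ iG₁ hG₁ using hsp
  have hG₁c : ∀ p θ, Nat.card (G₁ p θ) = w ^ 3 * v ^ 2 * (B * C) := by
    intro p θ
    obtain ⟨e⟩ := hG₁ p θ
    have h3 := Nat.card_congr e.toEquiv
    rw [helper52_card_Fam, Nat.card_prod, helper52_card_mz] at h3
    refine Nat.eq_of_mul_eq_mul_left h.pD.pos (h3.symm.trans ?_)
    ring
  have hN1pos : 0 < w ^ 3 * v ^ 2 * (B * C) :=
    Nat.mul_pos (Nat.mul_pos (pow_pos hw.pw.pos 3) (pow_pos hv.pv.pos 2))
      (Nat.mul_pos h.pB.pos h.pC.pos)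
  have hG₁fin : ∀ p θ, Finite (G₁ p θ) := fun p θ =>
    Nat.finite_of_card_ne_zero (by rw [hG₁c]; omega)
  have cD1 := helper52_coprime_D h hw hv
  have c71 : Nat.Coprime (w ^ 3 * v ^ 2 * (B * C)) 7 := by
    have hBw := hw.Bw
    have hwv := HypV.w_lt hw hv
    have hB7 := h.B7
    have hC7 := h.C7
    refine Nat.Coprime.mul_left (Nat.Coprime.mul_left ?_ ?_) (Nat.Coprime.mul_left ?_ ?_)
    · exact ((Nat.coprime_primes hw.pw p7).2 (by omega)).pow_left 3
    · exact ((Nat.coprime_primes hv.pv p7).2 (by omega)).pow_left 2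
    · exact (Nat.coprime_primes h.pB p7).2 (by omega)
    · exact (Nat.coprime_primes h.pC p7).2 (by omega)
  have cD7 : Nat.Coprime D 7 := (Nat.coprime_primes h.pD p7).2 (by have := h.D7; omega)
  have cN7 : Nat.Coprime (w ^ 3 * v ^ 2 * (B * C * D)) 7 := by
    have h3 : w ^ 3 * v ^ 2 * (B * C * D) = w ^ 3 * v ^ 2 * (B * C) * D := by ring
    rw [h3]
    exact Nat.Coprime.mul_left c71 cD7
  -- representatives
  have hrep : ∀ (p : M₁.τ × M₂.τ) (q : Th B C D ⧸ (M₁.S p.1 ⊔ M₂.S p.2)) (θ : Th B C D),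
      (QuotientGroup.mk θ : Th B C D ⧸ (M₁.S p.1 ⊔ M₂.S p.2)) = q →
      Nonempty (Fam M₁ M₂ p.1 p.2 θ ≃* Fam M₁ M₂ p.1 p.2 q.out) := by
    intro p q θ hθ
    apply fam_congr
    rw [← QuotientGroup.eq, hθ]
    exact (QuotientGroup.out_eq' q).symm
  -- injectivity on the index
  have hinj : ∀ (p p' : M₁.τ × M₂.τ) (q : Th B C D ⧸ (M₁.S p.1 ⊔ M₂.S p.2))
      (q' : Th B C D ⧸ (M₁.S p'.1 ⊔ M₂.S p'.2)),
      Nonempty (Fam M₁ M₂ p.1 p.2 q.out ≃* Fam M₁ M₂ p'.1 p'.2 q'.out) →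
      p = p' ∧ HEq q q' := by
    rintro ⟨t, t'⟩ ⟨u, u'⟩ q q' ⟨e⟩
    obtain ⟨h1, h2, h3⟩ := fam_inj h hw hv M₁ M₂ t u t' u' q.out q'.out e
    subst h1
    subst h2
    refine ⟨rfl, heq_of_eq ?_⟩
    have h4 := QuotientGroup.eq.2 h3
    rwa [QuotientGroup.out_eq', QuotientGroup.out_eq'] at h4
  refine ⟨fun i => match i with
      | .inl ⟨p, q⟩ => Multiplicative (ZMod 7) × Fam M₁ M₂ p.1 p.2 q.out
      | .inr ⟨p, q⟩ => F × G₁ p q.out,
    fun i => match i with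
      | .inl ⟨p, q⟩ => inferInstance
      | .inr ⟨p, q⟩ => inferInstance, ?_, ?_, ?_⟩
  · rintro (⟨p, q⟩ | ⟨p, q⟩)
    · show Nat.card (Multiplicative (ZMod 7) × Fam M₁ M₂ p.1 p.2 q.out) = _
      rw [Nat.card_prod, helper52_card_mz, helper52_card_Fam]
    · show Nat.card (F × G₁ p q.out) = _
      rw [Nat.card_prod, hFc, hG₁c]
      ring
  · rintro (⟨p, q⟩ | ⟨p, q⟩) (⟨p', q'⟩ | ⟨p', q'⟩) ⟨e⟩
    · obtain ⟨e'⟩ := helper52_cancel (A := Multiplicative (ZMod 7))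
        (A' := Multiplicative (ZMod 7)) (X := Fam M₁ M₂ p.1 p.2 q.out)
        (Y := Fam M₁ M₂ p'.1 p'.2 q'.out) e (by rw [helper52_card_Fam, helper52_card_Fam])
        (by rw [helper52_card_mz, helper52_card_Fam]; exact cN7.symm)
      obtain ⟨h1, h2⟩ := hinj p p' q q' ⟨e'⟩
      subst h1
      rw [eq_of_heq h2]
    · exact (helper52_not_iso h.pD h.D7 hFc hFn (X := Fam M₁ M₂ p.1 p.2 q.out)
        (Y := G₁ p' q'.out) (by rw [helper52_card_Fam]; exact cN7) e).elim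
    · exact (helper52_not_iso h.pD h.D7 hFc hFn (X := Fam M₁ M₂ p'.1 p'.2 q'.out)
        (Y := G₁ p q.out) (by rw [helper52_card_Fam]; exact cN7) (MulEquiv.symm e)).elim
    · obtain ⟨e'⟩ := helper52_cancel (A := F) (A' := F) (X := G₁ p q.out) (Y := G₁ p' q'.out) e
        (by rw [hG₁c, hG₁c]) (by
          rw [hFc, hG₁c]
          exact Nat.Coprime.mul_left c71.symm cD1)
      obtain ⟨e1⟩ := hG₁ p q.out
      obtain ⟨e2⟩ := hG₁ p' q'.out
      obtain ⟨h1, h2⟩ := hinj p.1 p'.1 q q'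
        ⟨e1.trans (((MulEquiv.refl _).prodCongr e').trans e2.symm)⟩
      have h3 : p = p' := Subtype.ext h1
      subst h3
      rw [eq_of_heq h2]
  · intro H _ hH
    rcases struct7 h hw hv H hH with ⟨G₀, iG₀, hG₀, ⟨e⟩⟩ | ⟨F', G', iF', iG', hF', hF'n, hG', ⟨e⟩⟩
    · obtain ⟨t, t', θ, ⟨e1⟩⟩ := fam_complete h hw hv M₁ M₂ G₀ hG₀
      obtain ⟨e2⟩ := hrep (t, t') (QuotientGroup.mk θ) θ rfl
      exact ⟨.inl ⟨(t, t'), QuotientGroup.mk θ⟩,
        ⟨e.trans ((MulEquiv.refl _).prodCongr (e1.trans e2))⟩⟩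
    · obtain ⟨e0⟩ := hFu F' hF' hF'n
      have hG'fin : Finite G' := Nat.finite_of_card_ne_zero (by rw [hG']; omega)
      obtain ⟨t, t', θ, ⟨e1⟩⟩ := fam_complete h hw hv M₁ M₂ (Multiplicative (ZMod D) × G') (by
        rw [Nat.card_prod, helper52_card_mz, hG']
        ring)
      have hDT := (fam_split h hw hv M₁ M₂ t t' θ).2 ⟨G', iG', ⟨e1.symm⟩⟩
      obtain ⟨e2⟩ := hrep (t, t') (QuotientGroup.mk θ) θ rfl
      obtain ⟨e3⟩ := hG₁ ⟨(t, t'), hDT⟩
        ((QuotientGroup.mk θ : Th B C D ⧸ (M₁.S t ⊔ M₂.S t')).out)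
      obtain ⟨e4⟩ := helper52_cancel (A := Multiplicative (ZMod D))
        (A' := Multiplicative (ZMod D)) (X := G') (Y := G₁ ⟨(t, t'), hDT⟩
        ((QuotientGroup.mk θ : Th B C D ⧸ (M₁.S t ⊔ M₂.S t')).out))
        (e1.trans (e2.trans e3)) (by rw [hG', hG₁c])
        (by rw [helper52_card_mz, hG']; exact cD1)
      exact ⟨.inr ⟨⟨(t, t'), hDT⟩, QuotientGroup.mk θ⟩, ⟨e.trans (e0.prodCongr e4)⟩⟩

theorem classify7 {B C D w v : ℕ} (h : HypQ B C D) (hw : HypW B C D w)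
    (hv : HypV B C D w v) (M₁ : Menu B C D (w ^ 3)) (M₂ : Menu B C D (v ^ 2)) :
    Classified (7 * (w ^ 3 * v ^ 2 * (B * C * D))) (Idx M₁ M₂ ⊕ IdxD M₁ M₂) :=
  classify7_of h hw hv M₁ M₂ (frob h.pD (by have := h.D42; omega))

end Pool.Agent.helper74.GN
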